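import Mathlib
import Pool.Agent.W2helper69.ID.G

set_option autoImplicit false

/-!
# Large values of Dirichlet polynomials on independently dilated sets (MP_ecd12e_nt)

The pieces `S_j` are ARBITRARY `1`-separated finite subsets of `[h, T]`; each of them is dilated by
its own factor `1 + u_j ∈ [1,2]`, and `u = (u_j)` runs through the unit cube outside an exceptional
set of small measure.
-/

namespace Pool.Agent.Results.MP_ecd12e_nt.IndependentDilations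

open Finset MeasureTheory

/-- `D(t) = ∑_{N ≤ n ≤ 2N} b_n n^{it}` -/
noncomputable def D (N : ℕ) (b : ℕ → ℂ) (t : ℝ) : ℂ :=
  ∑ n ∈ Icc N (2 * N), b n * Complex.exp (Complex.I * (t : ℂ) * (Real.log (n : ℝ) : ℂ))

/-- every `S_j` is a `1`-separated subset of `[h, T]` -/
def Pieces {J : ℕ} (S : Fin J → Finset ℝ) (h T : ℝ) : Prop :=
  ∀ j, (∀ s ∈ S j, h ≤ s ∧ s ≤ T) ∧ (∀ s ∈ S j, ∀ t ∈ S j, s ≠ t → 1 ≤ |s - t|)

/-- the number of points `∑_j |S_j|` -/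
noncomputable def R {J : ℕ} (S : Fin J → Finset ℝ) : ℝ := ∑ j, ((S j).card : ℝ)

/-- `max_j |S_j|` (`0` if there is no piece) -/
def m {J : ℕ} (S : Fin J → Finset ℝ) : ℕ := Finset.univ.sup (fun j => (S j).card)

/-- `μ(N, m, δ) = min (N + m √(N/δ)) (m + N √(m/δ))` -/
noncomputable def mu (N : ℕ) (m δ : ℝ) : ℝ := min (N + m * √(N / δ)) (m + N * √(m / δ))

/-- the factor `K = 432 (1 + log (2NT)) log (4N/δ)` -/
noncomputable def K (N : ℕ) (T δ : ℝ) : ℝ :=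
  432 * (1 + Real.log (2 * N * T)) * Real.log (4 * N / δ)

theorem result :
    -- large sieve inequality for all coefficients, for most of the pieces
    (∀ (N : ℕ) (T h δ θ : ℝ), 1 ≤ N → 1 ≤ h → 1 ≤ T → 0 < δ → δ ≤ 1 → 0 < θ →
      ∀ (J : ℕ) (S : Fin J → Finset ℝ), Pieces S h T → ∀ x : Fin J → ℝ,
      ∃ E : Set (Fin J → ℝ), MeasurableSet E ∧ volume E ≤ ENNReal.ofReal δ ∧
        ∀ u : Fin J → ℝ, (∀ j, u j ∈ Set.Icc (0 : ℝ) 1) → u ∉ E → ∃ G : Finset (Fin J),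
          (1 - θ) * R S ≤ ∑ j ∈ G, ((S j).card : ℝ) ∧
          ∀ b : ℕ → ℂ, ∑ j ∈ G, ∑ s ∈ S j, ‖D N b (x j + (1 + u j) * s)‖ ^ 2 ≤
            54 * (1 + Real.log (2 * N * T)) *
              (R S * (1 + N / h) + mu N (m S) (θ * δ) * Real.log (4 * N / δ)) *
                ∑ n ∈ Icc N (2 * N), ‖b n‖ ^ 2) ∧
    -- large values, whole range of `V` from about `N^(1/2)` on
    (∀ (N : ℕ) (T h δ : ℝ), 1 ≤ N → 1 ≤ h → 1 ≤ T → 0 < δ → δ ≤ 1 →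
      ∀ (J : ℕ) (S : Fin J → Finset ℝ), Pieces S h T → ∀ x : Fin J → ℝ,
      ∃ E : Set (Fin J → ℝ), MeasurableSet E ∧ volume E ≤ ENNReal.ofReal δ ∧
        ∀ u : Fin J → ℝ, (∀ j, u j ∈ Set.Icc (0 : ℝ) 1) → u ∉ E →
          ∀ b : ℕ → ℂ, (∀ n, ‖b n‖ ≤ 1) → ∀ V : ℝ, 0 < V →
            K N T δ * (N * (1 + N / h)) ≤ V ^ 2 →
            (∀ j, ∀ s ∈ S j, V ≤ ‖D N b (x j + (1 + u j) * s)‖) →
            R S ≤ K N T δ * N / V ^ 2 * mu N (m S) (δ / 2)) ∧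
    -- the form of Montgomery's conjecture
    (∀ A σ ε : ℝ, 1 ≤ A → 1 / 2 < σ → 0 < ε →
      ∃ κ : ℝ, 0 < κ ∧ ∃ N₀ : ℕ, ∀ N : ℕ, N₀ ≤ N → ∀ T : ℝ, (N:ℝ) ≤ T → T ≤ (N:ℝ) ^ A →
        ∀ (J : ℕ) (S : Fin J → Finset ℝ), Pieces S N T → ∀ x : Fin J → ℝ,
        ∃ E : Set (Fin J → ℝ), MeasurableSet E ∧ volume E ≤ ENNReal.ofReal ((N:ℝ) ^ (-κ)) ∧
          ∀ u : Fin J → ℝ, (∀ j, u j ∈ Set.Icc (0 : ℝ) 1) → u ∉ E →
            ∀ b : ℕ → ℂ, (∀ n, ‖b n‖ ≤ 1) →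
            (∀ j, ∀ s ∈ S j, (N:ℝ) ^ σ < ‖D N b (x j + (1 + u j) * s)‖) →
            (3 / 4 < σ ∨ (∀ j, ((S j).card : ℝ) ≤ √N) → R S ≤ (N:ℝ) ^ (2 - 2 * σ + ε)) ∧
            R S ≤ (N:ℝ) ^ (1 - 2 * σ + ε) * min (N + m S * √N) (m S + N * √(m S)) ∧
            R S ≤ (N:ℝ) ^ (4 - 4 * σ + ε)) := by
  refine ⟨?_, ?_, ?_⟩
  · intro N T h δ θ hN hh hT hδ hδ1 hθ J S hP x
    exact W2helper69.ID.sieve N hN T h δ θ (m S) hh hT hδ hδ1 hθ S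
      (fun j => (hP j).1) (fun j => (hP j).2) x (W2helper69.ID.card_le_mm S) (Nat.cast_nonneg _)
  · intro N T h δ hN hh hT hδ hδ1 J S hP x
    obtain ⟨E, hE, hv, hmain⟩ := W2helper69.ID.both N hN T h δ hh hT hδ hδ1 S
      (fun j => (hP j).1) (fun j => (hP j).2) x
    refine ⟨E, hE, hv, fun u hu huE b hb V hV hVK hF => ?_⟩
    exact ((hmain u hu huE b hb V _ hV rfl hVK hF).1)
  · intro A σ ε hA hσ hε
    obtain ⟨κ, hκ, N₀, h⟩ := W2helper69.ID.mont A σ ε hA hσ hε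
    refine ⟨κ, hκ, N₀, ?_⟩
    intro N hN T hT1 hT2 J S hP x
    exact h N hN T hT1 hT2 J S (fun j => (hP j).1) (fun j => (hP j).2) x

end Pool.Agent.Results.MP_ecd12e_nt.IndependentDilations
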